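import Pool.Agent.Lib.MP_2d4659_gt.Main

/-!
# An exotic algebraic 2-complex over `C₃ * ℤ`

`G = C₃ * ℤ`, `a, b` the generators. `∂₁ = d1`, `∂₂ = dL` is the cellular complex of the standard
2-complex of `⟨a, b | a³⟩` enlarged by a 2-disc (the generator `z` and the relator `z`):
`ℤG² → ℤG³ → ℤG → ℤ`. The boundary map `dK` has the same target and gives a second complex.

1. both are exact at `ℤG³` and at `ℤG`;
2. over every field the two boundary maps differ by an isomorphism in degree two;
3. the same holds over `ℤG` after adding one free summand in degree two;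
4. over `ℤG` itself they do not differ by an isomorphism in degree two, and
5. even the kernels of the two boundary maps are not isomorphic as `ℤG`-modules.
-/

namespace Exotic.Shelf

open Exotic

universe u

theorem result :
    ExactAtZero ℤ ∧ ExactAtOne ℤ (dL ℤ) ∧ ExactAtOne ℤ (dK ℤ) ∧
    (∀ (F : Type u) [Field F], LadderIso F) ∧ StableLadderIso ℤ ∧
    ¬ LadderIso ℤ ∧ ¬ KernelIso ℤ :=
  ⟨range_d1_iff ℤ, range_dL_iff ℤ, fun x => (range_dL_iff ℤ x).trans (dK_range_dL ℤ x),
    fun F _ => field_equiv F, ⟨stab ℤ, stab_spec ℤ⟩, no_iso, fun ⟨h⟩ => no_kernel_iso.false h⟩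

end Exotic.Shelf
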