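import Pool.Agent.Lib.MP_2d4659_gt.EX.Final

/-!
# Exotic algebraic 2-complexes over free products of cyclic groups

`G = Gp m` is the free product of the cyclic groups of orders `m j`, `j : J` (`0` means infinite), with
generators `a_j = gen m j`.  The complexes considered are `R^n → R^(J + Y) → R → k`, `R = k[G]`, with one
basis element in degree one for every `a_j` and for every one of the further elements `w y` of `G`,
`y : Y`; the map in degree one is `bd1 k (gX m w)`, which sends `e_x` to `x - 1`.

Assume that `G` has an infinite cyclic factor and a factor of order at least three, that `Y` is not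
empty and that the Euler characteristic is minimal.  Then besides the boundary matrix `D` of the
standard complex there is a matrix `D'` over `ℤ[G]` such that

1. both give exact complexes over every commutative ring `k`;
2. over every field they differ by an automorphism of `F[G]^n`;
3. the same holds over `ℤ[G]` after adding one free summand with zero boundary in degree two;
4. over `ℤ[G]` itself they do not differ by an automorphism of `ℤ[G]^n`;
5. even their kernels are not isomorphic `ℤ[G]`-modules.
-/

set_option autoImplicit false

namespace Pool.Agent.Results.MP_2d4659_gt.ExoticPairs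

open FP ExoGen

theorem result {J Y n : Type} [Fintype J] [Fintype Y] [Fintype n] [Nonempty Y] (m : J → ℕ)
    (h0 : ∃ j, m j = 0) (h3 : ∃ j, 3 ≤ m j) (w : Y → Gp m)
    (hn : Fintype.card n + Fintype.card {j : J // m j = 0} = Fintype.card J + Fintype.card Y) :
    ∃ D D' : Matrix n (J ⊕ Y) (RG ℤ m), IsStd w D ∧ ExactAll w D ∧ ExactAll w D' ∧
      (∀ (F : Type) [Field F], IsoOver F D D') ∧ StablyIso D D' ∧
      ¬ IsoOver ℤ D D' ∧ ¬ KerIso D D' :=
  final_theorem h0 h3 w hn

end Pool.Agent.Results.MP_2d4659_gt.ExoticPairs
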